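import Pool.Agent.Work.MP_bf99ce_cx.Final

/-!
# THEOREM CX (MP_bf99ce_ag): the definitions of the final statement, over a general module of differentials

The same definitions as in `Pool/Agent/Work/MP_bf99ce_cx/Stat.lean`, but with the module of differentials as a parameter, so that
the statement prints briefly.
-/

set_option autoImplicit false

noncomputable section

namespace Pool.CX

section General

variable {K W : Type} [Field K] [Algebra ℂ K] [AddCommGroup W] [Module K W]

/-- Let `d : K → W` be a map to a vector space (below: the universal derivation of the field `K` over `ℂ`). `τ` is a sum of terms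
`c (da_11 ∧ … ∧ da_1q) … (da_m1 ∧ … ∧ da_mq)` with `c` and all `a_ji` in the subring `A` of `K`. -/
def RegD (d : K → W) (A : Subalgebra ℂ K) (q m : ℕ) (τ : SymmetricAlgebra K (ExteriorAlgebra K W)) : Prop :=
  ∃ (N : ℕ) (c : Fin N → A) (a : Fin N → Fin m → Fin q → A),
    τ = ∑ n, (c n : K) • mono K (fun j i => d (a n j i))

/-- There is a nonzero `τ` in the symmetric algebra of the exterior algebra of `W` such that `(t_o / t_i)^j τ` satisfies `RegD` for
the ring `chart t i`, for every `i`. -/
def SectionD (d : K → W) {ι : Type} (t : ι → K) (o : ι) (q m j : ℕ) : Prop :=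
  ∃ τ : SymmetricAlgebra K (ExteriorAlgebra K W), τ ≠ 0 ∧ ∀ i, RegD d (chart t i) q m ((t o / t i) ^ j • τ)

end General

variable {K : Type} [Field K] [Algebra ℂ K] {ι : Type}

/-- `S^m Ω^q_X (j)` has a nonzero global section, `X` the variety with the homogeneous coordinates `t`: there is a nonzero `τ` in
`S^m Ω^q_{K/ℂ}` such that for every `i` the element `(t_o / t_i)^j τ` is a sum of terms
`c (da_11 ∧ … ∧ da_1q) … (da_m1 ∧ … ∧ da_mq)` with `c` and all `a_ji` in the coordinate ring of the `i`-th chart, that is, comes
from `S^m Ω^q` of this chart. (The twist is by the `j`-th multiple of the hyperplane `t_o = 0`.) -/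
def SectionOf (t : ι → K) (o : ι) (q m j : ℕ) : Prop :=
  SectionD (KaehlerDifferential.D ℂ K) t o q m j

/-- `Ω^q_X` is pseudoeffective, `X` the variety with the homogeneous coordinates `t`: for every `c` there are `i, j ≥ 1` with
`i > c j` such that `S^i Ω^q_X (j)` has a nonzero section. -/
def PseffOf (t : ι → K) (o : ι) (q : ℕ) : Prop :=
  ∀ c : ℕ, ∃ i j : ℕ, 1 ≤ j ∧ c * j < i ∧ SectionOf t o q i j

theorem final_short : ∃ (K : Type) (_ : Field K) (_ : Algebra ℂ K) (N : ℕ) (t : Fin (N + 1) → K),
    ProjManifold t ∧ Algebra.trdeg ℂ K = 4 ∧ PseffOf t 0 3 ∧ ∀ m : ℕ, 1 ≤ m → ¬ SectionOf t 0 3 m 0 :=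
  final

end Pool.CX
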