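import Pool.Agent.Work.MP_bf99ce_cx28.StatShort

namespace Pool.Agent.Work.MP_bf99ce_cx28.Test

open Pool.CX

theorem result : ∃ (K : Type) (_ : Field K) (_ : Algebra ℂ K) (N : ℕ) (t : Fin (N + 1) → K),
    ProjManifold t ∧ Algebra.trdeg ℂ K = 4 ∧ PseffOf t 0 3 ∧ ∀ m : ℕ, 1 ≤ m → ¬ SectionOf t 0 3 m 0 :=
  final_short

end Pool.Agent.Work.MP_bf99ce_cx28.Test
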